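import Pool.Agent.Work.MP_ef7f46_tn.Interface

/-!
MP_ef7f46_co, project TN: block MST (one step of the mass), helper6.
-/

set_option autoImplicit false
open Classical Finset

noncomputable section

namespace TN

namespace MSTh

variable {Q Λ : Type} [Fintype Λ]

lemma dg_nonneg (inc : Λ → Finset Q) (w : Λ → ℝ) (hw : ∀ ℓ, 0 ≤ w ℓ) (y : Q) :
    0 ≤ dg inc w y := by
  unfold dg
  apply Finset.sum_nonneg
  intro ℓ _
  split_ifs
  · exact hw ℓ
  · exact le_rfl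

lemma dg_mono (inc : Λ → Finset Q) (w w' : Λ → ℝ) (hw : ∀ ℓ, w ℓ ≤ w' ℓ) (y : Q) :
    dg inc w y ≤ dg inc w' y := by
  unfold dg
  apply Finset.sum_le_sum
  intro ℓ _
  split_ifs
  · exact hw ℓ
  · exact le_rfl

lemma dg_zero (inc : Λ → Finset Q) (w : Λ → ℝ) (y : Q) (hw : ∀ ℓ, y ∈ inc ℓ → w ℓ = 0) :
    dg inc w y = 0 := by
  unfold dg
  apply Finset.sum_eq_zero
  intro ℓ _
  split_ifs with h
  · exact hw ℓ h
  · rfl

/-- the weight of the hit lines is at most the sum of the degrees -/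
lemma hit_le (inc : Λ → Finset Q) (w : Λ → ℝ) (hw : ∀ ℓ, 0 ≤ w ℓ) {b : ℕ} (β : Fin b → Q)
    (I : Finset (Fin b)) :
    (∑ ℓ, if ∃ j ∈ I, β j ∈ inc ℓ then w ℓ else 0) ≤ ∑ j ∈ I, dg inc w (β j) := by
  unfold dg
  rw [Finset.sum_comm]
  apply Finset.sum_le_sum
  intro ℓ _
  split_ifs with h
  · obtain ⟨j, hj, hjl⟩ := h
    have h1 : (if β j ∈ inc ℓ then w ℓ else 0) ≤ ∑ j ∈ I, if β j ∈ inc ℓ then w ℓ else 0 := by
      apply Finset.single_le_sum (f := fun j => if β j ∈ inc ℓ then w ℓ else 0) _ hj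
      intro i _
      split_ifs
      · exact hw ℓ
      · exact le_rfl
    rw [if_pos hjl] at h1
    exact h1
  · apply Finset.sum_nonneg
    intro i _
    split_ifs
    · exact hw ℓ
    · exact le_rfl

end MSTh

open MSTh in
/-- MST: one step of the mass -/
theorem mst_ok (h1 : Stmt_STB) (h2 : Stmt_BALB) (h3 : Stmt_LCARD) : Stmt_MST := by
  intro Q Λ _ _ X hR S hS hbig v hv β hβ I hI
  obtain ⟨hh01, -, -, -⟩ := h1 Q Λ X hR
  obtain ⟨hcard, -, -, -⟩ := h3 Q Λ X.inc X.N X.M hR.lin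
  have hNpos : (0 : ℝ) < X.N := by exact_mod_cast hR.lin.Npos
  have hMpos : (0 : ℝ) < X.M := by exact_mod_cast hR.lin.Mpos
  have hmpos : (0 : ℝ) < X.m := by exact_mod_cast hR.mpos
  have hbpos : (0 : ℝ) < X.b := by exact_mod_cast hR.bpos
  have hlampos : (0 : ℝ) < X.lam := by exact_mod_cast hR.lampos
  have hlm : (X.lam : ℝ) / X.m ≤ 1 := by
    rw [div_le_one hmpos]; exact_mod_cast hR.lamm
  have hlm0 : 0 ≤ (X.lam : ℝ) / X.m := by positivity
  set μ : ℝ := (X.lam : ℝ) / X.m with hμ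
  set E : ℝ := Real.exp X.lam with hE
  have hEpos : 0 < E := Real.exp_pos _
  set e1 : ℝ := X.tau + X.eta + X.eps with he1
  have he1pos : 0 < e1 := by
    have := hR.taupos; have := hR.etapos; have := hR.epspos
    positivity
  set F := Fs X S β I with hF
  set w : Λ → ℝ := fun ℓ => v ℓ * S.W ℓ with hw
  have hv01 : ∀ ℓ, 0 ≤ v ℓ ∧ v ℓ ≤ 1 := by
    intro ℓ
    rcases hv ℓ with h | h <;> rw [h] <;> norm_num
  have hw0 : ∀ ℓ, 0 ≤ w ℓ := fun ℓ => mul_nonneg (hv01 ℓ).1 (hS ℓ).1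
  have hwW : ∀ ℓ, w ℓ ≤ S.W ℓ := fun ℓ => by
    have := mul_le_mul_of_nonneg_right (hv01 ℓ).2 (hS ℓ).1
    simpa [hw] using this
  have hwE : ∀ ℓ, 0 ≤ w ℓ ∧ w ℓ ≤ E := fun ℓ => ⟨hw0 ℓ, (hwW ℓ).trans (hS ℓ).2.1⟩
  -- degree bounds
  have hd3 : ∀ y, ¬ 3 < G X S.W y → dg X.inc w y ≤ 3 * X.N := by
    intro y hy
    push Not at hy
    unfold G at hy
    rw [div_le_iff₀ hNpos] at hy
    exact (dg_mono X.inc w S.W hwW y).trans hy
  have hd0 : ∀ j ∈ I, 3 < G X S.W (β j) → dg X.inc w (β j) = 0 := by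
    intro j hj h
    apply dg_zero
    intro ℓ hℓ
    simp only [hw]
    rw [hI j hj h ℓ hℓ, zero_mul]
  have hdI : ∀ j ∈ I, dg X.inc w (β j) ≤ 3 * X.N := by
    intro j hj
    by_cases h : 3 < G X S.W (β j)
    · rw [hd0 j hj h]; positivity
    · exact hd3 _ h
  -- the new mass
  have hMa' : Ma v (step X S β I) = Ma v S + ∑ ℓ, w ℓ * hh X β F ℓ -
      ∑ ℓ, (if ∃ j ∈ I, β j ∈ X.inc ℓ then w ℓ * (1 + hh X β F ℓ) else 0) := by
    unfold Ma
    rw [← Finset.sum_add_distrib, ← Finset.sum_sub_distrib]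
    apply Finset.sum_congr rfl
    intro ℓ _
    simp only [step, hw]
    split_ifs with h
    · ring
    · rw [← hF]; ring
  have hhit : (∑ ℓ, (if ∃ j ∈ I, β j ∈ X.inc ℓ then w ℓ * (1 + hh X β F ℓ) else 0)) ≤
      (1 + μ) * ∑ j ∈ I, dg X.inc w (β j) := by
    have h4 := hit_le X.inc w hw0 β I
    calc (∑ ℓ, (if ∃ j ∈ I, β j ∈ X.inc ℓ then w ℓ * (1 + hh X β F ℓ) else 0))
        ≤ ∑ ℓ, (1 + μ) * (if ∃ j ∈ I, β j ∈ X.inc ℓ then w ℓ else 0) := by
          apply Finset.sum_le_sum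
          intro ℓ _
          split_ifs with h
          · have h5 := (hh01 β F ℓ).2
            have h6 := hw0 ℓ
            nlinarith
          · simp
      _ = (1 + μ) * ∑ ℓ, (if ∃ j ∈ I, β j ∈ X.inc ℓ then w ℓ else 0) := by
          rw [Finset.mul_sum]
      _ ≤ _ := mul_le_mul_of_nonneg_left h4 (by linarith)
  -- splitting of the points
  set B := I.filter (fun j => β j ∈ ex0 X S) with hB
  set A := I.filter (fun j => β j ∈ Exc X (fun ℓ => v ℓ * S.W ℓ / Real.exp X.lam) ∧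
        ∃ ℓ, β j ∈ X.inc ℓ ∧ v ℓ = 1) with hA
  have hsplit : ∑ j ∈ I, dg X.inc w (β j) = ∑ j ∈ F, dg X.inc w (β j) +
      ∑ j ∈ B, dg X.inc w (β j) := by
    rw [hF, hB, Fs, add_comm, Finset.sum_filter_add_sum_filter_not]
  have hBs : ∑ j ∈ B, dg X.inc w (β j) ≤ 3 * X.N * B.card := by
    calc ∑ j ∈ B, dg X.inc w (β j) ≤ ∑ j ∈ B, (3 * X.N : ℝ) :=
          Finset.sum_le_sum (fun j hj => hdI j (Finset.mem_filter.1 hj).1)
      _ = 3 * X.N * B.card := by rw [Finset.sum_const, nsmul_eq_mul]; ring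
  have hFs := h2 Q Λ X hR w E hEpos hwE β hβ F
  have hAs : ∑ j ∈ F.filter (fun j => β j ∈ Exc X (fun ℓ => w ℓ / E)), dg X.inc w (β j) ≤
      3 * X.N * A.card := by
    have hsub : ∑ j ∈ F.filter (fun j => β j ∈ Exc X (fun ℓ => w ℓ / E)), dg X.inc w (β j) ≤
        ∑ j ∈ A, dg X.inc w (β j) := by
      have h7 : ∑ j ∈ F.filter (fun j => β j ∈ Exc X (fun ℓ => w ℓ / E)), dg X.inc w (β j) =
          ∑ j ∈ (F.filter (fun j => β j ∈ Exc X (fun ℓ => w ℓ / E))).filter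
            (fun j => ∃ ℓ, β j ∈ X.inc ℓ ∧ v ℓ = 1), dg X.inc w (β j) := by
        symm
        apply Finset.sum_subset (Finset.filter_subset _ _)
        intro j hj hj'
        apply dg_zero
        intro ℓ hℓ
        rw [Finset.mem_filter] at hj'
        push Not at hj'
        rcases hv ℓ with h | h
        · simp only [hw]; rw [h, zero_mul]
        · exact absurd h (hj' hj ℓ hℓ)
      rw [h7]
      apply Finset.sum_le_sum_of_subset_of_nonneg
      · intro j hj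
        rw [Finset.mem_filter, Finset.mem_filter] at hj
        rw [hA, Finset.mem_filter]
        refine ⟨?_, hj.1.2, hj.2⟩
        have h8 := hj.1.1
        rw [hF, Fs, Finset.mem_filter] at h8
        exact h8.1
      · intro j _ _
        exact dg_nonneg X.inc w hw0 _
    refine hsub.trans ?_
    calc ∑ j ∈ A, dg X.inc w (β j) ≤ ∑ j ∈ A, (3 * X.N : ℝ) :=
          Finset.sum_le_sum (fun j hj => hdI j (Finset.mem_filter.1 hj).1)
      _ = 3 * X.N * A.card := by rw [Finset.sum_const, nsmul_eq_mul]; ring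
  -- the quadratic term
  have hwh : ∑ ℓ, w ℓ * hh X β F ℓ ≤ μ * E * qq X := by
    calc ∑ ℓ, w ℓ * hh X β F ℓ ≤ ∑ ℓ : Λ, E * μ := by
          apply Finset.sum_le_sum
          intro ℓ _
          exact mul_le_mul (hwE ℓ).2 (hh01 β F ℓ).2 (hh01 β F ℓ).1 hEpos.le
      _ = μ * E * (Fintype.card Λ : ℝ) := by
          rw [Finset.sum_const, nsmul_eq_mul, Finset.card_univ]; ring
      _ ≤ μ * E * qq X := by
          apply mul_le_mul_of_nonneg_left _ (by positivity)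
          exact hcard
  have hwh0 : 0 ≤ ∑ ℓ, w ℓ * hh X β F ℓ :=
    Finset.sum_nonneg (fun ℓ _ => mul_nonneg (hw0 ℓ) (hh01 β F ℓ).1)
  have hAc : (0 : ℝ) ≤ A.card := Nat.cast_nonneg _
  have hBc : (0 : ℝ) ≤ B.card := Nat.cast_nonneg _
  set T := ∑ ℓ, w ℓ * hh X β F ℓ with hT
  have hD : ∑ j ∈ I, dg X.inc w (β j) ≤ T + X.b * E * X.N * e1 + 3 * X.N * A.card +
      3 * X.N * B.card := by
    rw [hsplit]
    linarith
  have hk1 : (1 + μ) * ∑ j ∈ I, dg X.inc w (β j) ≤ (1 + μ) * (T + X.b * E * X.N * e1 +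
      3 * X.N * A.card + 3 * X.N * B.card) := mul_le_mul_of_nonneg_left hD (by linarith)
  have hk2 : μ * T ≤ μ ^ 2 * E * qq X := by
    have := mul_le_mul_of_nonneg_left hwh hlm0
    nlinarith
  have hk3 : μ * (X.b * E * X.N * e1) ≤ X.b * E * X.N * e1 := by
    have : 0 ≤ X.b * E * X.N * e1 := by positivity
    nlinarith
  have hk4 : μ * (3 * X.N * A.card + 3 * X.N * B.card) ≤ 3 * X.N * A.card + 3 * X.N * B.card := by
    have : 0 ≤ (3 : ℝ) * X.N * A.card + 3 * X.N * B.card := by positivity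
    nlinarith
  rw [hMa']
  nlinarith

end TN
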