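import Pool.Agent.Work.MP_ef7f46_tn.Interface

/-!
MP_ef7f46_co, project TN: block MSU (half of the mass survives), helper6.
-/

set_option autoImplicit false
open Classical Finset

noncomputable section

namespace TN

namespace MSUh

variable {Q Λ : Type} [Fintype Q] [Fintype Λ]

/-- the cardinality of a set of positions is the sum of the cardinalities of its slices -/
lemma card_slices (X : Ctx Q Λ) (T : Finset (Pos X)) :
    T.card = ∑ i : Fin X.m, (sl X T i).card := by
  have h : T.card = ∑ p : Pos X, if p ∈ T then 1 else 0 := by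
    rw [Finset.sum_ite_mem, Finset.univ_inter, Finset.sum_const, smul_eq_mul, mul_one]
  rw [h, Fintype.sum_prod_type]
  apply Finset.sum_congr rfl
  intro i _
  unfold sl
  rw [Finset.card_filter]

/-- the process at a successor -/
lemma st_succ (X : Ctx Q Λ) (z : Pos X → Q) (I : Finset (Pos X)) (i : Fin X.m) :
    st X z I (i.val + 1) = step X (st X z I i) (fun j => z (i, j)) (sl X I i) := by
  show (if h : i.val < X.m then step X (st X z I i) (fun j => z (⟨i.val, h⟩, j))
    (sl X I ⟨i.val, h⟩) else st X z I i) = _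
  rw [dif_pos i.isLt]

/-- number of lines through the points of a small set -/
lemma hit_card (X : Ctx Q Λ) (hR : Reg X) (z : Pos X → Q) (J : Finset (Pos X)) :
    (Fintype.card Λ : ℝ) - X.N * J.card ≤ ∑ ℓ, vJ X z J ℓ := by
  have h1 : (Fintype.card Λ : ℝ) = ∑ ℓ : Λ, (1 : ℝ) := by
    rw [Finset.sum_const, nsmul_eq_mul, Finset.card_univ, mul_one]
  have h2 : (∑ ℓ : Λ, (1 : ℝ)) - ∑ ℓ, vJ X z J ℓ ≤ X.N * J.card := by
    rw [← Finset.sum_sub_distrib]
    have h3 : ∀ ℓ, (1 : ℝ) - vJ X z J ℓ ≤ ∑ p ∈ J, if z p ∈ X.inc ℓ then (1 : ℝ) else 0 := by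
      intro ℓ
      unfold vJ
      split_ifs with h
      · obtain ⟨p, hp, hpl⟩ := h
        have h5 : (if z p ∈ X.inc ℓ then (1 : ℝ) else 0) ≤
            ∑ p ∈ J, if z p ∈ X.inc ℓ then (1 : ℝ) else 0 := by
          apply Finset.single_le_sum (f := fun p => if z p ∈ X.inc ℓ then (1 : ℝ) else 0) _ hp
          intro i _
          split_ifs <;> norm_num
        rw [if_pos hpl] at h5
        linarith
      · have : 0 ≤ ∑ p ∈ J, if z p ∈ X.inc ℓ then (1 : ℝ) else 0 := by
          apply Finset.sum_nonneg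
          intro i _
          split_ifs <;> norm_num
        linarith
    calc ∑ ℓ, ((1 : ℝ) - vJ X z J ℓ) ≤ ∑ ℓ, ∑ p ∈ J, (if z p ∈ X.inc ℓ then (1 : ℝ) else 0) :=
          Finset.sum_le_sum (fun ℓ _ => h3 ℓ)
      _ = ∑ p ∈ J, ∑ ℓ, (if z p ∈ X.inc ℓ then (1 : ℝ) else 0) := Finset.sum_comm
      _ ≤ ∑ p ∈ J, (X.N : ℝ) := by
          apply Finset.sum_le_sum
          intro p _
          rw [Finset.sum_boole]
          exact_mod_cast hR.lin.deg (z p)
      _ = X.N * J.card := by rw [Finset.sum_const, nsmul_eq_mul]; ring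
  linarith

end MSUh

open MSUh in
/-- MSU: half of the mass survives -/
theorem msu_ok (h1 : Stmt_STB) (h2 : Stmt_LCARD) (h3 : Stmt_PSU) (h4 : Stmt_MST) : Stmt_MSU := by
  intro Q Λ _ _ X hR hN z hT hF I hI
  obtain ⟨-, hst, -, -⟩ := h1 Q Λ X hR
  have hpsu := h3 Q Λ X hR hN z hT I hI
  have hNpos : (0 : ℝ) < X.N := by exact_mod_cast hR.lin.Npos
  have hMpos : (0 : ℝ) < X.M := by exact_mod_cast hR.lin.Mpos
  have hmpos : (0 : ℝ) < X.m := by exact_mod_cast hR.mpos
  have hbpos : (0 : ℝ) < X.b := by exact_mod_cast hR.bpos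
  have hlampos : (0 : ℝ) < X.lam := by exact_mod_cast hR.lampos
  have hmb : (X.m : ℝ) * X.b = X.lam * X.M := by exact_mod_cast hR.mb
  set E : ℝ := Real.exp X.lam with hE
  have hEpos : 0 < E := Real.exp_pos _
  set e1 : ℝ := X.tau + X.eta + X.eps with he1
  set J : Finset (Pos X) := I.filter (fun p => 3 < G X (st X z I p.1).W (z p)) with hJ
  set v := vJ X z J with hv
  have hv01 : ∀ ℓ, v ℓ = 0 ∨ v ℓ = 1 := by
    intro ℓ
    rw [hv]
    unfold vJ
    split_ifs
    · left; rfl
    · right; rfl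
  -- J is part of bad1
  have hJb : J ⊆ bad1 X z I := by
    intro p hp
    rw [hJ, Finset.mem_filter] at hp
    unfold bad1
    rw [Finset.mem_filter]
    refine ⟨hp.1, ?_⟩
    unfold ex0
    rw [Finset.mem_union]
    right
    unfold bigG
    rw [if_pos (hpsu p.1.val p.1.isLt.le).2]
    unfold big
    rw [Finset.mem_filter]
    exact ⟨Finset.mem_univ _, hp.2⟩
  have hJc : (J.card : ℝ) ≤ X.M / 100 :=
    le_trans (by exact_mod_cast Finset.card_le_card hJb) (hF.one I)
  -- lines through points of J have weight 0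
  have hvJ : ∀ p ∈ J, ∀ ℓ, z p ∈ X.inc ℓ → v ℓ = 0 := by
    intro p hp ℓ hℓ
    rw [hv]
    unfold vJ
    rw [if_pos ⟨p, hp, hℓ⟩]
  -- one step
  have hstep : ∀ i : Fin X.m, Ma v (st X z I i.val) ≤ Ma v (st X z I (i.val + 1)) +
      (((X.lam : ℝ) / X.m) ^ 2 * E * qq X + 2 * X.b * E * X.N * e1 +
      6 * X.N * (((sl X (bad2 X z I J) i).card : ℝ) + ((sl X (bad1 X z I) i).card : ℝ))) := by
    intro i
    have h5 := h4 Q Λ X hR (st X z I i.val)
      (fun ℓ => ⟨(hst z I i.val ℓ).1, (hst z I i.val ℓ).2.2.2.2, (hst z I i.val ℓ).2.2.1,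
        (hst z I i.val ℓ).2.2.2.1⟩) (hpsu i.val i.isLt.le).2 v hv01
      (fun j => z (i, j)) (hT.dense i) (sl X I i) (by
        intro j hj hG ℓ hℓ
        have hjI : (i, j) ∈ I := by
          unfold sl at hj
          exact (Finset.mem_filter.1 hj).2
        refine hvJ (i, j) ?_ ℓ hℓ
        rw [hJ, Finset.mem_filter]
        exact ⟨hjI, hG⟩)
    rw [← st_succ] at h5
    have hA : ((((sl X I i).filter (fun j => z (i, j) ∈
          Exc X (fun ℓ => v ℓ * (st X z I i.val).W ℓ / Real.exp X.lam) ∧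
          ∃ ℓ, z (i, j) ∈ X.inc ℓ ∧ v ℓ = 1)).card : ℕ) : ℝ) ≤
        ((sl X (bad2 X z I J) i).card : ℝ) := by
      have : (sl X I i).filter (fun j => z (i, j) ∈
          Exc X (fun ℓ => v ℓ * (st X z I i.val).W ℓ / Real.exp X.lam) ∧
          ∃ ℓ, z (i, j) ∈ X.inc ℓ ∧ v ℓ = 1) ⊆ sl X (bad2 X z I J) i := by
        intro j hj
        rw [Finset.mem_filter] at hj
        obtain ⟨hjs, hjE, ℓ, hℓ, hvℓ⟩ := hj
        have hjI : (i, j) ∈ I := by
          unfold sl at hjs
          exact (Finset.mem_filter.1 hjs).2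
        unfold sl
        rw [Finset.mem_filter]
        refine ⟨Finset.mem_univ _, ?_⟩
        unfold bad2
        rw [Finset.mem_filter, Finset.mem_sdiff]
        refine ⟨⟨hjI, ?_⟩, hjE⟩
        intro hjJ
        have := hvJ (i, j) hjJ ℓ hℓ
        rw [this] at hvℓ
        norm_num at hvℓ
      exact_mod_cast Finset.card_le_card this
    have hB : ((((sl X I i).filter (fun j => z (i, j) ∈ ex0 X (st X z I i.val))).card : ℕ) : ℝ) ≤
        ((sl X (bad1 X z I) i).card : ℝ) := by
      have : (sl X I i).filter (fun j => z (i, j) ∈ ex0 X (st X z I i.val)) ⊆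
          sl X (bad1 X z I) i := by
        intro j hj
        rw [Finset.mem_filter] at hj
        obtain ⟨hjs, hjE⟩ := hj
        have hjI : (i, j) ∈ I := by
          unfold sl at hjs
          exact (Finset.mem_filter.1 hjs).2
        unfold sl
        rw [Finset.mem_filter]
        refine ⟨Finset.mem_univ _, ?_⟩
        unfold bad1
        rw [Finset.mem_filter]
        exact ⟨hjI, hjE⟩
      exact_mod_cast Finset.card_le_card this
    have hAB := mul_le_mul_of_nonneg_left (add_le_add hA hB)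
      (show (0 : ℝ) ≤ 6 * X.N by positivity)
    refine h5.trans ?_
    linarith
  -- summation
  set c : ℝ := ((X.lam : ℝ) / X.m) ^ 2 * E * qq X + 2 * X.b * E * X.N * e1 with hc
  have hsum : Ma v (st X z I 0) ≤ Ma v (st X z I X.m) + ∑ i : Fin X.m, (c +
      6 * X.N * (((sl X (bad2 X z I J) i).card : ℝ) + ((sl X (bad1 X z I) i).card : ℝ))) := by
    have h6 : ∑ i : Fin X.m, (Ma v (st X z I i.val) - Ma v (st X z I (i.val + 1))) =
        Ma v (st X z I 0) - Ma v (st X z I X.m) := by
      rw [Fin.sum_univ_eq_sum_range (fun i => Ma v (st X z I i) - Ma v (st X z I (i + 1))) X.m]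
      exact Finset.sum_range_sub' (fun i => Ma v (st X z I i)) X.m
    have h7 : ∑ i : Fin X.m, (Ma v (st X z I i.val) - Ma v (st X z I (i.val + 1))) ≤
        ∑ i : Fin X.m, (c +
        6 * X.N * (((sl X (bad2 X z I J) i).card : ℝ) + ((sl X (bad1 X z I) i).card : ℝ))) := by
      apply Finset.sum_le_sum
      intro i _
      have := hstep i
      linarith
    linarith
  have htot : ∑ i : Fin X.m, (c +
      6 * X.N * (((sl X (bad2 X z I J) i).card : ℝ) + ((sl X (bad1 X z I) i).card : ℝ))) =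
      X.m * c + 6 * X.N * (((bad2 X z I J).card : ℝ) + ((bad1 X z I).card : ℝ)) := by
    rw [Finset.sum_add_distrib, Finset.sum_const, nsmul_eq_mul, Finset.card_univ,
      Fintype.card_fin, ← Finset.mul_sum, Finset.sum_add_distrib,
      card_slices X (bad2 X z I J), card_slices X (bad1 X z I)]
    push_cast
    ring
  rw [htot] at hsum
  have hmc : X.m * c = ((X.lam : ℝ) ^ 2 * E / X.m + 2 * X.lam * E * e1) * qq X := by
    rw [hc]
    have h8 : (X.m : ℝ) * (2 * X.b * E * X.N * e1) = 2 * (X.m * X.b) * E * X.N * e1 := by ring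
    rw [mul_add, h8, hmb]
    unfold qq
    field_simp
  have hqq : 0 < qq X := by unfold qq; positivity
  have herr := hN.err4
  rw [← hE, ← he1] at herr
  have hmc2 : X.m * c ≤ 3 / 10 * qq X := by
    rw [hmc]
    exact mul_le_mul_of_nonneg_right herr hqq.le
  have hbad : 6 * X.N * (((bad2 X z I J).card : ℝ) + ((bad1 X z I).card : ℝ)) ≤
      12 / 100 * qq X := by
    have h9 := hF.one I
    have h10 := hF.two I J
    have h11 : ((bad2 X z I J).card : ℝ) + ((bad1 X z I).card : ℝ) ≤ X.M / 50 := by linarith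
    have h12 := mul_le_mul_of_nonneg_left h11 (show (0 : ℝ) ≤ 6 * X.N by positivity)
    unfold qq
    linarith
  -- the initial mass
  have hM0 : Ma v (st X z I 0) = ∑ ℓ, vJ X z J ℓ := by
    unfold Ma
    apply Finset.sum_congr rfl
    intro ℓ _
    show v ℓ * 1 = _
    rw [mul_one]
  have hinit : 98 / 100 * qq X ≤ Ma v (st X z I 0) := by
    rw [hM0]
    have h13 := hit_card X hR z J
    have h14 := hR.lin.many
    have h15 : (X.N : ℝ) * J.card ≤ X.N * (X.M / 100) :=
      mul_le_mul_of_nonneg_left hJc hNpos.le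
    unfold qq
    linarith
  -- the final mass
  have hfin : Ma v (st X z I X.m) ≤ ∑ ℓ, (st X z I X.m).W ℓ := by
    unfold Ma
    apply Finset.sum_le_sum
    intro ℓ _
    have hW := (hst z I X.m ℓ).1
    rcases hv01 ℓ with h | h <;> rw [h]
    · rw [zero_mul]; exact hW
    · rw [one_mul]
  linarith

end TN
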